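import Pool.Agent.Lib.MP_4b46f5_al.Main

/-!
For every prime `p` the function `f_p` of the problem takes the value infinity at `p ^ a` for all
but finitely many `a`: at all `a ≥ 9` for `p = 2`, all `a ≥ 6` for `p = 3` and all `a ≥ p - 2`
for `p ≥ 5`.
-/

universe u

namespace Pool.Agent.Results.MP_4b46f5_al.Unbounded

/-- `n` is the dimension of an irreducible representation over `𝕜` of a finite group `G` whose
order has `p`-part `p ^ a`. -/
def IsDegree (p : ℕ) (𝕜 : Type u) [Field 𝕜] (a n : ℕ) : Prop :=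
  ∃ (G : Type) (_ : Group G) (_ : Finite G) (V : Type u) (_ : AddCommGroup V) (_ : Module 𝕜 V)
    (ρ : Representation 𝕜 G V), ρ.IsIrreducible ∧ FiniteDimensional 𝕜 V ∧
      padicValNat p (Nat.card G) = a ∧ Module.finrank 𝕜 V = n

/-- The function `f_p`, as a function of the exponent `a`: the supremum in `ℕ∞` of the `p`-parts
of the degrees of the irreducible `p`-modular characters of the finite groups `G` with
`|G|_p = p ^ a`. -/
noncomputable def fp (p : ℕ) (𝕜 : Type u) [Field 𝕜] (a : ℕ) : ℕ∞ :=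
  ⨆ (n : ℕ) (_ : IsDegree p 𝕜 a n), ((p ^ padicValNat p n : ℕ) : ℕ∞)

/-- the exponent from which on `f_p` is shown to be infinite -/
def threshold (p : ℕ) : ℕ := if p = 2 then 9 else if p = 3 then 6 else p - 2

theorem result (p : ℕ) (hp : p.Prime) (𝕜 : Type u) [Field 𝕜] [IsAlgClosed 𝕜] [CharP 𝕜 p]
    (a : ℕ) (ha : threshold p ≤ a) : fp p 𝕜 a = ⊤ := by
  have : Fact p.Prime := ⟨hp⟩
  obtain ⟨b, rfl⟩ := Nat.exists_eq_add_of_le ha
  rw [eq_top_iff, ← ENat.forall_natCast_le_iff_le]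
  intro m _
  obtain ⟨δ, h1, h2⟩ := BrauerPP.good_all (p := p) 𝕜 m b
  have h3 : IsDegree p 𝕜 (threshold p + b) δ := h2
  have h4 : ((m : ℕ) : ℕ∞) ≤ ((p ^ padicValNat p δ : ℕ) : ℕ∞) := by
    have : m ≤ p ^ padicValNat p δ :=
      (Nat.lt_pow_self hp.one_lt).le.trans (Nat.pow_le_pow_right hp.pos h1)
    exact_mod_cast this
  exact h4.trans (le_iSup₂_of_le δ h3 le_rfl)

end Pool.Agent.Results.MP_4b46f5_al.Unbounded
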